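import Pool.Agent.H8.UB.Targets

/-!
# MP_404602_al, row CDG: formulas and free realisations (helper10)
-/

set_option autoImplicit false

open CategoryTheory

namespace Pool.Agent.H10.UB

open Pool.Agent.H56.UDs Pool.Agent.H8.UB

section

variable {S : Type} [Ring S]

/-- the rows of a formula -/
def rw_ (c : Cd S) (l : Fin c.m) : S × (Fin c.n → S) := (c.a l, c.b l)

/-- the relations of a formula -/
def rel (c : Cd S) : Submodule S (S × (Fin c.n → S)) := Submodule.span S (Set.range (rw_ c))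

/-- the module of a formula -/
abbrev Mc (c : Cd S) : Type := (S × (Fin c.n → S)) ⧸ rel c

/-- the universal element -/
def xc (c : Cd S) : Mc c := (rel c).mkQ (1, 0)

/-- the evaluation at a solution -/
noncomputable def ev {M : Type} [AddCommGroup M] [Module S M] (n : ℕ) (x : M) (y : Fin n → M) :
    (S × (Fin n → S)) →ₗ[S] M :=
  (LinearMap.toSpanSingleton S M x).coprod (Fintype.linearCombination S y)

theorem ev_apply {M : Type} [AddCommGroup M] [Module S M] (n : ℕ) (x : M) (y : Fin n → M)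
    (s : S) (t : Fin n → S) : ev n x y (s, t) = s • x + ∑ i, t i • y i := by
  simp [ev, Fintype.linearCombination_apply]

/-- the vector with the coordinates `t` is a combination of the unit vectors -/
theorem vec (n : ℕ) (s : S) (t : Fin n → S) :
    (s, t) = s • ((1 : S), (0 : Fin n → S)) + ∑ i, t i • ((0 : S), (Pi.single i (1 : S) : Fin n → S)) := by
  refine Prod.ext ?_ ?_
  · rw [Prod.fst_add, Prod.fst_sum]
    simp
  · rw [Prod.snd_add, Prod.snd_sum]
    funext j
    simp [Finset.sum_apply, Pi.single_apply]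

theorem xc_mem (c : Cd S) : c.Sat (Mc c) (xc c) := by
  refine ⟨fun i => (rel c).mkQ (0, Pi.single i 1), fun j => ?_⟩
  have h1 : (rel c).mkQ (c.a j, c.b j) = 0 := by
    rw [Submodule.mkQ_apply, Submodule.Quotient.mk_eq_zero]
    exact Submodule.subset_span ⟨j, rfl⟩
  rw [vec, map_add, map_smul, map_sum] at h1
  simp only [map_smul] at h1
  exact h1

theorem hom_ex (c : Cd S) (M : Type) [AddCommGroup M] [Module S M] (x : M) (hx : c.Sat M x) :
    ∃ f : Mc c →ₗ[S] M, f (xc c) = x := by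
  obtain ⟨y, hy⟩ := hx
  have hle : rel c ≤ LinearMap.ker (ev c.n x y) := by
    refine Submodule.span_le.2 ?_
    rintro _ ⟨l, rfl⟩
    rw [SetLike.mem_coe, LinearMap.mem_ker]
    show ev c.n x y (c.a l, c.b l) = 0
    rw [ev_apply]
    exact hy l
  refine ⟨(rel c).liftQ (ev c.n x y) hle, ?_⟩
  show (rel c).liftQ (ev c.n x y) hle ((rel c).mkQ (1, 0)) = x
  rw [Submodule.mkQ_apply, Submodule.liftQ_apply, ev_apply]
  simp

theorem fn_fg (c : Cd S) : c.fn.FG := by
  refine ⟨FGModuleCat.of S (Mc c), (xc c : Mc c), xc_mem c, ?_⟩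
  intro M x hx
  obtain ⟨f, hf⟩ := hom_ex c M x hx
  exact ⟨FGModuleCat.ofHom f, hf⟩

theorem comb {M : Type} [AddCommGroup M] [Module S M] (m n : ℕ) (x : M) (y : Fin n → M)
    (e : Fin m → S) (a : Fin m → S) (b : Fin m → Fin n → S) :
    ∑ l, e l • (a l • x + ∑ t, b l t • y t) =
      (∑ l, e l * a l) • x + ∑ t, (∑ l, e l * b l t) • y t := by
  simp only [smul_add, Finset.sum_add_distrib, Finset.smul_sum, Finset.sum_smul, mul_smul]
  rw [Finset.sum_comm]

theorem sat_of_mc (c d : Cd S) (h : MC c d) (M : Type) [AddCommGroup M] [Module S M] (x : M)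
    (hx : c.Sat M x) : d.Sat M x := by
  obtain ⟨p, q, z, h1, h2⟩ := h
  obtain ⟨y, hy⟩ := hx
  refine ⟨fun i => p i • x + ∑ t, q i t • y t, fun j => ?_⟩
  have e3 : ∑ l, z j l • (c.a l • x + ∑ t, c.b l t • y t) = 0 :=
    Finset.sum_eq_zero fun l _ => by rw [hy l, smul_zero]
  have e4 : ∑ t, (∑ i, d.b j i * q i t) • y t = ∑ t, (∑ l, z j l * c.b l t) • y t :=
    Finset.sum_congr rfl fun t _ => by rw [h2 j t]
  rw [comb d.n c.n x y (d.b j) p q, ← add_assoc, ← add_smul, h1 j, e4,
    ← comb c.m c.n x y (z j) c.a c.b, e3]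

theorem mc_le (c d : Cd S) (h : MC c d) : c.fn ≤ d.fn :=
  fun M => (fun x hx => sat_of_mc c d h M x hx : ∀ x, x ∈ c.fn.car M → x ∈ d.fn.car M)

theorem le_mc (c d : Cd S) (h : c.fn ≤ d.fn) : MC c d := by
  have h0 : ∀ (M : FGModuleCat.{0} S) (x : (UF S).obj M), x ∈ c.fn.car M → x ∈ d.fn.car M :=
    fun M x hx => h M hx
  have h1 : d.Sat (Mc c) (xc c) := h0 (FGModuleCat.of S (Mc c)) (xc c : Mc c) (xc_mem c)
  obtain ⟨y, hy⟩ := h1
  choose w hw using fun i => Submodule.mkQ_surjective (rel c) (y i)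
  have h2 : ∀ j, d.a j • ((1 : S), (0 : Fin c.n → S)) + ∑ i, d.b j i • w i ∈ rel c := by
    intro j
    rw [← Submodule.Quotient.mk_eq_zero, ← Submodule.mkQ_apply, map_add, map_smul, map_sum]
    have := hy j
    simp only [map_smul, hw]
    exact this
  have h3 : ∀ j, ∃ z : Fin c.m → S, ∑ l, z l • rw_ c l =
      d.a j • ((1 : S), (0 : Fin c.n → S)) + ∑ i, d.b j i • w i := fun j =>
    (Submodule.mem_span_range_iff_exists_fun S).1 (h2 j)
  choose z hz using h3
  refine ⟨fun i => (w i).1, fun i => (w i).2, z, fun j => ?_, fun j t => ?_⟩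
  · have := congrArg Prod.fst (hz j)
    rw [Prod.fst_sum, Prod.fst_add, Prod.fst_sum] at this
    simp only [rw_, Prod.smul_fst, smul_eq_mul, mul_one] at this
    exact this.symm
  · have := congrFun (congrArg Prod.snd (hz j)) t
    rw [Prod.snd_sum, Prod.snd_add, Prod.snd_sum] at this
    simp only [rw_, Prod.smul_snd, smul_eq_mul, Pi.add_apply, Finset.sum_apply, Pi.smul_apply,
      Pi.zero_apply, mul_zero, zero_add] at this
    exact this.symm

end

/-- CDG: formulas and free realisations -/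
theorem pf_CDG : T_CDG := fun _ _ => ⟨fn_fg, fun c d => ⟨le_mc c d, mc_le c d⟩⟩

end Pool.Agent.H10.UB
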